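import Pool.Agent.Lib_helper65.FC.Mono
import Pool.Agent.Lib_helper65.FC.Polar

/-! Complex measures as unimodular densities. -/

namespace FC65

open MeasureTheory Set Filter Topology

set_option linter.unusedSectionVars false

variable {X : Type*} [MeasurableSpace X]

/-- a countably additive complex set function is `c m` with `m` finite and `|c| = 1` -/
lemma exists_polar_of_sigma (ν : Set X → ℂ)
    (hσ : ∀ A : ℕ → Set X, (∀ n, MeasurableSet (A n)) →
      Pairwise (Function.onFun Disjoint A) → HasSum (fun n => ν (A n)) (ν (⋃ n, A n))) :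
    ∃ (m : Measure X) (c : X → ℂ), IsFiniteMeasure m ∧ Measurable c ∧ (∀ y, ‖c y‖ = 1) ∧
      ∀ A, MeasurableSet A → ν A = ∫ y, A.indicator (fun _ => (1 : ℂ)) y * c y ∂m := by
  classical
  have h0 : ν ∅ = 0 := by
    have h1 := hσ (fun _ => ∅) (fun _ => MeasurableSet.empty) (by
      intro i j _; simp [Function.onFun])
    simp only [iUnion_empty] at h1
    exact (summable_const_iff _).1 h1.summable
  let v : VectorMeasure X ℂ :=
    { measureOf' := fun A => if MeasurableSet A then ν A else 0
      empty' := by simp [h0]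
      not_measurable' := fun A hA => by simp [hA]
      m_iUnion' := by
        intro f hf hd
        simp only [hf, MeasurableSet.iUnion hf, if_true]
        exact hσ f hf hd }
  have hv : ∀ A, MeasurableSet A → v A = ν A := fun A hA => if_pos hA
  let re : SignedMeasure X := ComplexMeasure.re v
  let im : SignedMeasure X := ComplexMeasure.im v
  have hre : ∀ A, re A = (v A).re := fun A => rfl
  have him : ∀ A, im A = (v A).im := fun A => rfl
  let jr := re.toJordanDecomposition
  let ji := im.toJordanDecomposition
  have er : ∀ A, MeasurableSet A → (v A).re = jr.posPart.real A - jr.negPart.real A := by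
    intro A hA
    rw [← hre]
    have h1 : re = jr.toSignedMeasure := (SignedMeasure.toSignedMeasure_toJordanDecomposition _).symm
    rw [h1, JordanDecomposition.toSignedMeasure, Measure.toSignedMeasure_sub_apply hA]
  have ei : ∀ A, MeasurableSet A → (v A).im = ji.posPart.real A - ji.negPart.real A := by
    intro A hA
    rw [← him]
    have h1 : im = ji.toSignedMeasure := (SignedMeasure.toSignedMeasure_toJordanDecomposition _).symm
    rw [h1, JordanDecomposition.toSignedMeasure, Measure.toSignedMeasure_sub_apply hA]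
  let μ : Fin 4 → Measure X := ![jr.posPart, jr.negPart, ji.posPart, ji.negPart]
  have hfin : ∀ i, IsFiniteMeasure (μ i) := by
    intro i
    fin_cases i
    · exact jr.posPart_finite
    · exact jr.negPart_finite
    · exact ji.posPart_finite
    · exact ji.negPart_finite
  obtain ⟨m, c, h1, h2, h3, h4⟩ := polar4 μ ![1, -1, Complex.I, -Complex.I]
  refine ⟨m, c, h1, h2, h3, fun A hA => ?_⟩
  have hbA : Measurable (A.indicator fun _ => (1 : ℂ)) ∧
      ∃ C : ℝ, ∀ x, ‖A.indicator (fun _ => (1 : ℂ)) x‖ ≤ C := by
    refine ⟨measurable_const.indicator hA, 1, fun x => ?_⟩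
    by_cases h : x ∈ A <;> simp [h]
  rw [← h4 _ hbA]
  have h5 : ∀ i, ∫ y, A.indicator (fun _ => (1 : ℂ)) y ∂(μ i) = ((μ i).real A : ℂ) := by
    intro i
    rw [integral_indicator_const _ hA]
    simp
  simp only [h5, Fin.sum_univ_four]
  have h6 : ν A = ((v A).re : ℂ) + ((v A).im : ℂ) * Complex.I := by
    rw [Complex.re_add_im, hv A hA]
  rw [h6, er A hA, ei A hA]
  simp only [μ, Matrix.cons_val_zero, Matrix.cons_val_one, Matrix.cons_val]
  push_cast
  ring

/-- the total variation is at most four times the supremum of the values -/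
lemma mass_le (m : Measure X) [IsFiniteMeasure m] {c : X → ℂ} (hc : Measurable c)
    (hc1 : ∀ y, ‖c y‖ = 1) {K : ℝ}
    (hK : ∀ A, MeasurableSet A → ‖∫ y, A.indicator (fun _ => (1 : ℂ)) y * c y ∂m‖ ≤ K) :
    m.real univ ≤ 4 * K := by
  have hint : ∀ A, MeasurableSet A → IntegrableOn c A m := fun A _ =>
    (Integrable.of_bound hc.aestronglyMeasurable 1
      (Eventually.of_forall fun y => (hc1 y).le)).integrableOn
  have hci : Integrable c m := Integrable.of_bound hc.aestronglyMeasurable 1
    (Eventually.of_forall fun y => (hc1 y).le)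
  have hA : ∀ A, MeasurableSet A → ‖∫ y in A, c y ∂m‖ ≤ K := by
    intro A hA
    have h1 := hK A hA
    have e : ∫ y, A.indicator (fun _ => (1 : ℂ)) y * c y ∂m = ∫ y in A, c y ∂m := by
      rw [← integral_indicator hA]
      apply integral_congr_ae
      filter_upwards with y
      by_cases hy : y ∈ A <;> simp [hy]
    rwa [e] at h1
  have hre : ∀ A, MeasurableSet A → |∫ y in A, (c y).re ∂m| ≤ K := by
    intro A hAm
    have h1 : (∫ y in A, c y ∂m).re = ∫ y in A, (c y).re ∂m := (integral_re (hint A hAm)).symm
    rw [← h1]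
    exact (Complex.abs_re_le_norm _).trans (hA A hAm)
  have him : ∀ A, MeasurableSet A → |∫ y in A, (c y).im ∂m| ≤ K := by
    intro A hAm
    have h1 : (∫ y in A, c y ∂m).im = ∫ y in A, (c y).im ∂m := (integral_im (hint A hAm)).symm
    rw [← h1]
    exact (Complex.abs_im_le_norm _).trans (hA A hAm)
  -- real functions
  have key : ∀ g : X → ℝ, Measurable g → Integrable g m →
      (∀ A, MeasurableSet A → |∫ y in A, g y ∂m| ≤ K) → ∫ y, |g y| ∂m ≤ 2 * K := by
    intro g hg hgi h
    have hS : MeasurableSet {y | 0 ≤ g y} := measurableSet_le measurable_const hg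
    rw [← integral_add_compl hS hgi.abs]
    have e1 : ∫ y in {y | 0 ≤ g y}, |g y| ∂m = ∫ y in {y | 0 ≤ g y}, g y ∂m :=
      setIntegral_congr_fun hS fun y hy => abs_of_nonneg hy
    have e2 : ∫ y in {y | 0 ≤ g y}ᶜ, |g y| ∂m = -∫ y in {y | 0 ≤ g y}ᶜ, g y ∂m := by
      rw [← integral_neg]
      refine setIntegral_congr_fun hS.compl fun y hy => ?_
      have : ¬ 0 ≤ g y := hy
      exact abs_of_neg (not_le.1 this)
    rw [e1, e2]
    have h1 := (le_abs_self _).trans (h _ hS)
    have h2 := (neg_le_abs _).trans (h _ hS.compl)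
    linarith
  have k1 := key (fun y => (c y).re) (Complex.measurable_re.comp hc) hci.re hre
  have k2 := key (fun y => (c y).im) (Complex.measurable_im.comp hc) hci.im him
  have h1 : m.real univ = ∫ _, (1 : ℝ) ∂m := by simp
  rw [h1]
  calc ∫ _, (1 : ℝ) ∂m ≤ ∫ y, (|(c y).re| + |(c y).im|) ∂m := by
        refine integral_mono (integrable_const _) (hci.re.abs.add hci.im.abs) fun y => ?_
        have := Complex.norm_le_abs_re_add_abs_im (c y)
        rw [hc1 y] at this
        exact this
    _ = ∫ y, |(c y).re| ∂m + ∫ y, |(c y).im| ∂m := integral_add hci.re.abs hci.im.abs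
    _ ≤ 4 * K := by linarith

end FC65
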