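import Pool.Agent.Lib_helper65.FC.Mono

/-! The bounded Borel functional calculus attached to a star homomorphism
`C(X, ℂ) → B(H)`, `X` a compact metric space. -/

namespace FC65

open MeasureTheory Set Filter Topology InnerProductSpace
open scoped ComplexConjugate

set_option linter.unusedSectionVars false

variable {X : Type*} [MetricSpace X] [CompactSpace X] [MeasurableSpace X] [BorelSpace X]
variable {H : Type*} [NormedAddCommGroup H] [InnerProductSpace ℂ H] [CompleteSpace H]

/-- complexification of a real continuous function -/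
def toC (f : C(X, ℝ)) : C(X, ℂ) := ⟨fun x => (f x : ℂ), by fun_prop⟩

lemma toC_add (f g : C(X, ℝ)) : toC (f + g) = toC f + toC g := by
  ext x; simp [toC]

lemma toC_smul (c : ℝ) (f : C(X, ℝ)) : toC (c • f) = (c : ℂ) • toC f := by
  ext x; simp [toC]

lemma star_toC (f : C(X, ℝ)) : star (toC f) = toC f := by
  ext x; simp [toC]

variable (π : C(X, ℂ) →⋆ₐ[ℂ] (H →L[ℂ] H))

lemma pi_star_mul (g : C(X, ℂ)) (x : H) : (inner ℂ x (π (star g * g) x)) = ((‖π g x‖ ^ 2 : ℝ) : ℂ) := by
  rw [map_mul, map_star]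
  change (inner ℂ x ((star (π g)) ((π g) x))) = _
  rw [ContinuousLinearMap.star_eq_adjoint, ContinuousLinearMap.adjoint_inner_right,
    inner_self_eq_norm_sq_to_K]
  norm_cast

lemma pi_pos {f : C(X, ℝ)} (hf : ∀ x, 0 ≤ f x) (x : H) : 0 ≤ ((inner ℂ x (π (toC f) x))).re := by
  have e : toC f = star (toC ⟨fun x => Real.sqrt (f x), by fun_prop⟩)
      * toC ⟨fun x => Real.sqrt (f x), by fun_prop⟩ := by
    ext x
    rw [star_toC]
    simp only [toC, ContinuousMap.mul_apply, ContinuousMap.coe_mk]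
    rw [← Complex.ofReal_mul, Real.mul_self_sqrt (hf x)]
  rw [e, pi_star_mul, Complex.ofReal_re]
  positivity

lemma pi_im (f : C(X, ℝ)) (x : H) : ((inner ℂ x (π (toC f) x))).im = 0 := by
  have h1 : star (π (toC f)) = π (toC f) := by rw [← map_star, star_toC]
  rw [ContinuousLinearMap.star_eq_adjoint] at h1
  have h2 : (inner ℂ x (π (toC f) x)) = (inner ℂ (π (toC f) x) x) := by
    conv_lhs => rw [← h1]
    rw [ContinuousLinearMap.adjoint_inner_right]
  rw [← inner_conj_symm] at h2
  have h3 := congrArg Complex.im h2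
  simp only [Complex.conj_im] at h3
  have h4 : ((inner ℂ (π (toC f) x) x)).im = -((inner ℂ x (π (toC f) x))).im := by
    rw [← inner_conj_symm, Complex.conj_im]
  rw [h4] at h3
  linarith

/-- the positive functional attached to a vector -/
noncomputable def lam (x : H) : CompactlySupportedContinuousMap X ℝ →ₚ[ℝ] ℝ :=
  PositiveLinearMap.mk₀
    { toFun := fun f => ((inner ℂ x (π (toC f.toContinuousMap) x))).re
      map_add' := by
        intro f g
        have e : (f + g).toContinuousMap = f.toContinuousMap + g.toContinuousMap := rfl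
        rw [e, toC_add, map_add, add_apply, inner_add_right, Complex.add_re]
      map_smul' := by
        intro c f
        have e : (c • f).toContinuousMap = c • f.toContinuousMap := rfl
        rw [e, toC_smul, map_smul, smul_apply, inner_smul_right]
        simp }
    (by
      intro f hf
      exact pi_pos π (fun x => hf x) x)

/-- the spectral measure of a vector -/
noncomputable def mu (x : H) : Measure X := RealRMK.rieszMeasure (lam π x)

instance (x : H) : (mu π x).Regular := by unfold mu; infer_instance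

instance (x : H) : IsFiniteMeasure (mu π x) := CompactSpace.isFiniteMeasure

lemma integral_real (f : C(X, ℝ)) (x : H) :
    ∫ z, f z ∂(mu π x) = ((inner ℂ x (π (toC f) x))).re := by
  have := RealRMK.integral_rieszMeasure (lam π x) ⟨f, HasCompactSupport.of_compactSpace f⟩
  exact this

lemma integral_complex (f : C(X, ℂ)) (x : H) : ∫ z, f z ∂(mu π x) = (inner ℂ x (π f x)) := by
  let fr : C(X, ℝ) := ⟨fun z => (f z).re, by fun_prop⟩
  let fi : C(X, ℝ) := ⟨fun z => (f z).im, by fun_prop⟩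
  have e : f = toC fr + Complex.I • toC fi := by
    ext z
    simp only [toC, fr, fi, ContinuousMap.add_apply, ContinuousMap.coe_mk, ContinuousMap.smul_apply,
      smul_eq_mul]
    rw [mul_comm]
    exact (Complex.re_add_im (f z)).symm
  have hint : Integrable (fun z => f z) (mu π x) := by
    have hbm := BM.of_cont f.continuous
    exact Integrable.of_bound hbm.1.aestronglyMeasurable hbm.2.choose
      (Eventually.of_forall hbm.2.choose_spec)
  have h1 : ((inner ℂ x (π f x))) = (inner ℂ x (π (toC fr) x)) + Complex.I * (inner ℂ x (π (toC fi) x)) := by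
    conv_lhs => rw [e]
    rw [map_add, map_smul, add_apply, smul_apply,
      inner_add_right, inner_smul_right]
  rw [h1]
  have hre := integral_real π fr x
  have him := integral_real π fi x
  have kr : (((inner ℂ x (π (toC fr) x))).re : ℂ) = (inner ℂ x (π (toC fr) x)) := by
    apply Complex.ext
    · simp
    · simp [pi_im]
  have ki : (((inner ℂ x (π (toC fi) x))).re : ℂ) = (inner ℂ x (π (toC fi) x)) := by
    apply Complex.ext
    · simp
    · simp [pi_im]
  rw [← kr, ← ki, ← hre, ← him]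
  have h2 : ∫ z, f z ∂(mu π x) = (∫ z, (f z).re ∂(mu π x) : ℝ) + (∫ z, (f z).im ∂(mu π x) : ℝ)
      * Complex.I := (integral_re_add_im hint).symm
  rw [h2]
  simp only [fr, fi, ContinuousMap.coe_mk]
  ring

lemma mu_univ (x : H) : (mu π x).real univ = ‖x‖ ^ 2 := by
  have h := integral_real π (1 : C(X, ℝ)) x
  have e : toC (1 : C(X, ℝ)) = 1 := by ext z; simp [toC]
  rw [e, map_one] at h
  simp only [ContinuousMap.one_apply, integral_const, smul_eq_mul, mul_one,
    one_apply_eq_self] at h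
  rw [h]
  change ((inner ℂ x x)).re = _
  rw [inner_self_eq_norm_sq_to_K]
  norm_cast

/-- the quadratic functional -/
noncomputable def qf (x : H) (b : X → ℂ) : ℂ := ∫ z, b z ∂(mu π x)

lemma qf_LF (x : H) : LF (qf π x) := LF.integral (mu π x)

lemma qf_bound {b : X → ℂ} {C : ℝ} (hC : ∀ z, ‖b z‖ ≤ C) (x : H) : ‖qf π x b‖ ≤ C * ‖x‖ ^ 2 := by
  have := norm_integral_le_of_norm_le_const (μ := mu π x) (Eventually.of_forall hC)
  rw [mu_univ] at this
  exact this

/-- polarisation -/
noncomputable def Bf (x y : H) (b : X → ℂ) : ℂ :=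
  (1 / 4 : ℂ) * (qf π (x + y) b + Complex.I * qf π (Complex.I • x + y) b
    - qf π (-x + y) b - Complex.I * qf π (-(Complex.I • x) + y) b)

lemma Bf_LF (x y : H) : LF (Bf π x y) := by
  have h1 := (qf_LF π (x + y)).comb (qf_LF π (Complex.I • x + y)) (1 / 4) (1 / 4 * Complex.I)
  have h2 := (qf_LF π (-x + y)).comb (qf_LF π (-(Complex.I • x) + y)) (-(1 / 4))
    (-(1 / 4 * Complex.I))
  have h3 := h1.comb h2 1 1
  have e : Bf π x y = fun a => 1 * (1 / 4 * qf π (x + y) a
      + 1 / 4 * Complex.I * qf π (Complex.I • x + y) a)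
      + 1 * (-(1 / 4) * qf π (-x + y) a + -(1 / 4 * Complex.I) * qf π (-(Complex.I • x) + y) a) := by
    funext a
    simp only [Bf]; ring
  rw [e]
  exact h3

lemma Bf_cont (x y : H) (f : C(X, ℂ)) : Bf π x y f = (inner ℂ x (π f y)) := by
  simp only [Bf, qf, integral_complex]
  simp only [map_add, map_neg, map_smul, inner_add_left, inner_add_right, inner_neg_left,
    inner_neg_right, inner_smul_left, inner_smul_right, Complex.conj_I]
  have hI : Complex.I * Complex.I = -1 := Complex.I_mul_I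
  ring_nf
  simp only [Complex.I_sq]
  ring

lemma Bf_eq {x y : H} {L : (X → ℂ) → ℂ} (hL : LF L)
    (h : ∀ f : C(X, ℂ), L f = (inner ℂ x (π f y))) {b : X → ℂ} (hb : BM b) : L b = Bf π x y b :=
  hL.ext (Bf_LF π x y) (fun f hf _ => by
    have := h ⟨f, hf⟩
    rw [← Bf_cont] at this
    exact this) hb

lemma Bf_self (x : H) {b : X → ℂ} (hb : BM b) : qf π x b = Bf π x x b :=
  Bf_eq π (qf_LF π x) (fun f => integral_complex π f x) hb

lemma Bf_add_left (x x' y : H) {b : X → ℂ} (hb : BM b) :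
    Bf π (x + x') y b = Bf π x y b + Bf π x' y b := by
  have h := Bf_eq π (x := x + x') (y := y) ((Bf_LF π x y).comb (Bf_LF π x' y) 1 1)
    (fun f => by simp only [Bf_cont, inner_add_left, one_mul]) hb
  rw [← h]; ring

lemma Bf_add_right (x y y' : H) {b : X → ℂ} (hb : BM b) :
    Bf π x (y + y') b = Bf π x y b + Bf π x y' b := by
  have h := Bf_eq π (x := x) (y := y + y') ((Bf_LF π x y).comb (Bf_LF π x y') 1 1)
    (fun f => by simp only [Bf_cont, map_add, inner_add_right, one_mul]) hb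
  rw [← h]; ring

lemma Bf_smul_left (c : ℂ) (x y : H) {b : X → ℂ} (hb : BM b) :
    Bf π (c • x) y b = conj c * Bf π x y b := by
  have h := Bf_eq π (x := c • x) (y := y) ((Bf_LF π x y).comb (Bf_LF π x y) (conj c) 0)
    (fun f => by simp only [Bf_cont, inner_smul_left, zero_mul, add_zero]) hb
  rw [← h]; ring

lemma Bf_smul_right (c : ℂ) (x y : H) {b : X → ℂ} (hb : BM b) :
    Bf π x (c • y) b = c * Bf π x y b := by
  have h := Bf_eq π (x := x) (y := c • y) ((Bf_LF π x y).comb (Bf_LF π x y) c 0)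
    (fun f => by simp only [Bf_cont, map_smul, inner_smul_right, zero_mul, add_zero]) hb
  rw [← h]; ring

lemma Bf_bound1 {b : X → ℂ} {C : ℝ} (hC : ∀ z, ‖b z‖ ≤ C) {x y : H}
    (hx : ‖x‖ ≤ 1) (hy : ‖y‖ ≤ 1) (hC0 : 0 ≤ C) : ‖Bf π x y b‖ ≤ 4 * C := by
  have h4 : ∀ w : H, ‖w‖ ≤ 1 → ‖qf π (w + y) b‖ ≤ 4 * C := by
    intro w hw
    refine (qf_bound π hC _).trans ?_
    have h1 : ‖w + y‖ ≤ 2 := (norm_add_le _ _).trans (by linarith)
    have h2 : ‖w + y‖ ^ 2 ≤ 4 := by nlinarith [norm_nonneg (w + y)]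
    nlinarith
  have e1 := h4 x hx
  have e2 := h4 (Complex.I • x) (by rw [norm_smul]; simpa using hx)
  have e3 := h4 (-x) (by rw [norm_neg]; exact hx)
  have e4 := h4 (-(Complex.I • x)) (by rw [norm_neg, norm_smul]; simpa using hx)
  unfold Bf
  rw [norm_mul]
  have h5 : ‖(1 / 4 : ℂ)‖ = 1 / 4 := by norm_num
  rw [h5]
  have h6 : ‖qf π (x + y) b + Complex.I * qf π (Complex.I • x + y) b
      - qf π (-x + y) b - Complex.I * qf π (-(Complex.I • x) + y) b‖ ≤ 4 * C + 4 * C + 4 * C + 4 * C := by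
    refine (norm_sub_le _ _).trans (add_le_add ((norm_sub_le _ _).trans (add_le_add
      ((norm_add_le _ _).trans (add_le_add e1 ?_)) e3)) ?_)
    · rw [norm_mul, Complex.norm_I, one_mul]; exact e2
    · rw [norm_mul, Complex.norm_I, one_mul]; exact e4
  linarith

lemma Bf_bound {b : X → ℂ} {C : ℝ} (hb : BM b) (hC : ∀ z, ‖b z‖ ≤ C) (hC0 : 0 ≤ C) (x y : H) :
    ‖Bf π x y b‖ ≤ 4 * C * ‖x‖ * ‖y‖ := by
  have hz1 : ∀ y : H, Bf π 0 y b = 0 := fun y => by
    have := Bf_smul_left π 0 (0 : H) y hb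
    simpa using this
  have hz2 : ∀ x : H, Bf π x 0 b = 0 := fun x => by
    have := Bf_smul_right π 0 x (0 : H) hb
    simpa using this
  by_cases hx : x = 0
  · rw [hx, hz1]; simp
  by_cases hy : y = 0
  · rw [hy, hz2]; simp
  have hx' : 0 < ‖x‖ := norm_pos_iff.2 hx
  have hy' : 0 < ‖y‖ := norm_pos_iff.2 hy
  have ex : x = ((‖x‖ : ℝ) : ℂ) • (((‖x‖⁻¹ : ℝ) : ℂ) • x) := by
    rw [smul_smul, ← Complex.ofReal_mul, mul_inv_cancel₀ hx'.ne']; simp
  have ey : y = ((‖y‖ : ℝ) : ℂ) • (((‖y‖⁻¹ : ℝ) : ℂ) • y) := by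
    rw [smul_smul, ← Complex.ofReal_mul, mul_inv_cancel₀ hy'.ne']; simp
  have nx : ‖(((‖x‖⁻¹ : ℝ) : ℂ) • x)‖ ≤ 1 := by
    rw [norm_smul, Complex.norm_real, norm_inv, norm_norm, inv_mul_cancel₀ hx'.ne']
  have ny : ‖(((‖y‖⁻¹ : ℝ) : ℂ) • y)‖ ≤ 1 := by
    rw [norm_smul, Complex.norm_real, norm_inv, norm_norm, inv_mul_cancel₀ hy'.ne']
  have h1 := Bf_bound1 π hC nx ny hC0
  have h2 : Bf π x y b = ((‖x‖ : ℝ) : ℂ) * (((‖y‖ : ℝ) : ℂ)
      * Bf π (((‖x‖⁻¹ : ℝ) : ℂ) • x) (((‖y‖⁻¹ : ℝ) : ℂ) • y) b) := by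
    conv_lhs => rw [ex, ey]
    rw [Bf_smul_left π _ _ _ hb, Bf_smul_right π _ _ _ hb, Complex.conj_ofReal]
  rw [h2, norm_mul, norm_mul, Complex.norm_real, Complex.norm_real, norm_norm, norm_norm]
  have : ‖x‖ * (‖y‖ * ‖Bf π (((‖x‖⁻¹ : ℝ) : ℂ) • x) (((‖y‖⁻¹ : ℝ) : ℂ) • y) b‖)
      ≤ ‖x‖ * (‖y‖ * (4 * C)) := by gcongr
  linarith

/-- the bounded sesquilinear form -/
noncomputable def form {b : X → ℂ} (hb : BM b) : H →L⋆[ℂ] H →L[ℂ] ℂ :=
  LinearMap.mkContinuous₂
    (LinearMap.mk₂'ₛₗ (starRingEnd ℂ) (RingHom.id ℂ) (fun x y => Bf π x y b)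
      (fun x x' y => Bf_add_left π x x' y hb) (fun c x y => Bf_smul_left π c x y hb)
      (fun x y y' => Bf_add_right π x y y' hb) (fun c x y => Bf_smul_right π c x y hb))
    (4 * |hb.2.choose|)
    (fun x y => Bf_bound π hb (fun z => (hb.2.choose_spec z).trans (le_abs_self _))
      (abs_nonneg _) x y)

open Classical in
/-- the operator `b(N)` -/
noncomputable def Th (b : X → ℂ) : H →L[ℂ] H :=
  if hb : BM b then ContinuousLinearMap.adjoint (continuousLinearMapOfBilin (form π hb)) else 0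

lemma Th_inner {b : X → ℂ} (hb : BM b) (x y : H) : (inner ℂ x (Th π b y)) = Bf π x y b := by
  unfold Th
  rw [dif_pos hb, ContinuousLinearMap.adjoint_inner_right, continuousLinearMapOfBilin_apply]
  rfl

lemma Th_eq {b : X → ℂ} (hb : BM b) {T : H →L[ℂ] H} (h : ∀ x y, (inner ℂ x (T y)) = Bf π x y b) :
    T = Th π b := by
  ext y
  apply ext_inner_left ℂ
  intro x
  rw [h, Th_inner π hb]

lemma Th_cont (f : C(X, ℂ)) : Th π f = π f :=
  (Th_eq π (BM.of_cont f.continuous) (fun x y => (Bf_cont π x y f).symm)).symm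

lemma Th_add {a b : X → ℂ} (ha : BM a) (hb : BM b) :
    Th π (fun x => a x + b x) = Th π a + Th π b := by
  refine (Th_eq π (ha.add hb) fun x y => ?_).symm
  rw [add_apply, inner_add_right, Th_inner π ha, Th_inner π hb,
    (Bf_LF π x y).add a b ha hb]

lemma Th_smul (c : ℂ) {a : X → ℂ} (ha : BM a) : Th π (fun x => c * a x) = c • Th π a := by
  refine (Th_eq π (ha.smul c) fun x y => ?_).symm
  rw [smul_apply, inner_smul_right, Th_inner π ha, (Bf_LF π x y).smul c a ha]

lemma Th_one : Th π (fun _ => 1) = 1 := by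
  have := Th_cont π (1 : C(X, ℂ))
  rw [map_one] at this
  exact this

/-- multiplicativity -/
lemma Th_mul {a b : X → ℂ} (ha : BM a) (hb : BM b) :
    Th π (fun x => a x * b x) = Th π a * Th π b := by
  -- step 1: `a` continuous
  have step1 : ∀ (f : C(X, ℂ)) (x y : H), Bf π x y (fun z => f z * b z) = Bf π x (Th π b y) f := by
    intro f x y
    have hf : BM (f : X → ℂ) := BM.of_cont f.continuous
    have h1 := Bf_eq π (x := (ContinuousLinearMap.adjoint (π f)) x) (y := y)
      ((Bf_LF π x y).mulr hf) (fun g => by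
        have : (fun z => g z * f z) = ((f * g : C(X, ℂ)) : X → ℂ) := by
          funext z; simp [mul_comm]
        rw [this, Bf_cont, map_mul, ContinuousLinearMap.adjoint_inner_left]
        rfl) hb
    have e : (fun z => f z * b z) = fun z => b z * f z := by funext z; ring
    rw [e]
    change Bf π x y (fun z => b z * f z) = _ at h1
    rw [h1, ← Th_inner π hb, ContinuousLinearMap.adjoint_inner_left, Bf_cont]
  refine (Th_eq π (ha.mul hb) fun x y => ?_).symm
  have h2 := Bf_eq π (x := x) (y := Th π b y) ((Bf_LF π x y).mulr hb) (fun f => by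
    rw [← Bf_cont]
    exact step1 f x y) ha
  change (inner ℂ x (Th π a (Th π b y))) = _
  rw [Th_inner π ha, ← h2]

/-- conjugation -/
lemma LF.conj' {L : (X → ℂ) → ℂ} (hL : LF L) : LF (fun a => conj (L (fun x => conj (a x)))) := by
  refine ⟨fun a b ha hb => ?_, fun c a ha => ?_, fun a b C ma mb hC hl => ?_⟩
  · have e : (fun x => conj (a x + b x)) = fun x => conj (a x) + conj (b x) := by
      funext x; simp
    rw [e, hL.add _ _ ha.star hb.star, map_add]
  · have e : (fun x => conj (c * a x)) = fun x => conj c * conj (a x) := by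
      funext x; simp
    rw [e, hL.smul _ _ ha.star, map_mul, Complex.conj_conj]
  · have h1 := hL.lim (fun n x => conj (a n x)) (fun x => conj (b x)) C
      (fun n => Complex.continuous_conj.measurable.comp (ma n))
      (Complex.continuous_conj.measurable.comp mb)
      (fun n x => by rw [RCLike.norm_conj]; exact hC n x)
      (fun x => (Complex.continuous_conj.tendsto _).comp (hl x))
    exact (Complex.continuous_conj.tendsto _).comp h1

lemma Th_star {b : X → ℂ} (hb : BM b) :
    Th π (fun x => conj (b x)) = ContinuousLinearMap.adjoint (Th π b) := by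
  refine (Th_eq π hb.star fun x y => ?_).symm
  rw [ContinuousLinearMap.adjoint_inner_right, ← inner_conj_symm, Th_inner π hb]
  have h := Bf_eq π (x := x) (y := y) (Bf_LF π y x).conj' (fun f => by
    have e : (fun z => conj (f z)) = ((star f : C(X, ℂ)) : X → ℂ) := by funext z; simp
    rw [e, Bf_cont, map_star, ContinuousLinearMap.star_eq_adjoint,
      ContinuousLinearMap.adjoint_inner_right, inner_conj_symm]) hb.star
  rw [← h]
  simp

lemma Th_norm_sq {b : X → ℂ} (hb : BM b) (x : H) :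
    ((‖Th π b x‖ ^ 2 : ℝ) : ℂ) = qf π x (fun z => conj (b z) * b z) := by
  rw [Bf_self π x (hb.star.mul hb), ← Th_inner π (hb.star.mul hb), Th_mul π hb.star hb, Th_star π hb]
  change _ = (inner ℂ x ((ContinuousLinearMap.adjoint (Th π b)) (Th π b x)))
  rw [ContinuousLinearMap.adjoint_inner_right, inner_self_eq_norm_sq_to_K]
  norm_cast

lemma Th_bound {b : X → ℂ} {C : ℝ} (hb : BM b) (hC0 : 0 ≤ C) (hC : ∀ z, ‖b z‖ ≤ C) :
    ‖Th π b‖ ≤ C := by
  apply ContinuousLinearMap.opNorm_le_bound _ hC0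
  intro x
  have h1 := Th_norm_sq π hb x
  have h2 : ‖qf π x (fun z => conj (b z) * b z)‖ ≤ C ^ 2 * ‖x‖ ^ 2 := by
    refine qf_bound π (fun z => ?_) x
    rw [norm_mul, RCLike.norm_conj, sq]
    exact mul_le_mul (hC z) (hC z) (norm_nonneg _) hC0
  rw [← h1, Complex.norm_real, Real.norm_eq_abs, abs_of_nonneg (by positivity)] at h2
  have h3 : ‖Th π b x‖ ^ 2 ≤ (C * ‖x‖) ^ 2 := by rw [mul_pow]; exact h2
  exact le_of_sq_le_sq h3 (by positivity)

/-- weak dominated convergence -/
lemma Th_lim_weak (x y : H) {a : ℕ → X → ℂ} {b : X → ℂ} {C : ℝ} (ma : ∀ n, Measurable (a n))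
    (mb : Measurable b) (hC : ∀ n z, ‖a n z‖ ≤ C)
    (hl : ∀ z, Tendsto (fun n => a n z) atTop (𝓝 (b z))) :
    Tendsto (fun n => (inner ℂ x (Th π (a n) y))) atTop (𝓝 (inner ℂ x (Th π b y))) := by
  have hbC : ∀ z, ‖b z‖ ≤ C := fun z =>
    le_of_tendsto (hl z).norm (Eventually.of_forall fun n => hC n z)
  simp only [fun n => Th_inner π (⟨ma n, C, hC n⟩ : BM (a n)) x y,
    Th_inner π (⟨mb, C, hbC⟩ : BM b) x y]
  exact (Bf_LF π x y).lim a b C ma mb hC hl

end FC65
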