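import Pool.Agent.Lib_helper65.FC.CMeas
import Pool.Agent.Lib_helper15.RankOne.Defs3

/-! Module J: a scalar type operator has a bounded Borel functional calculus. -/

set_option autoImplicit false

open MeasureTheory Metric Set Filter Topology

namespace Pool.Agent.RankOne

namespace JJ

variable {E : Type*} [NormedAddCommGroup E] [NormedSpace ℂ E]

/-- the complex measures `ℓ (P(·) x)` in polar form -/
structure Dat (P : Set ℂ → (E →L[ℂ] E)) where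
  m : E → StrongDual ℂ E → Measure ℂ
  c : E → StrongDual ℂ E → ℂ → ℂ
  fin : ∀ x ℓ, IsFiniteMeasure (m x ℓ)
  meas : ∀ x ℓ, Measurable (c x ℓ)
  one : ∀ x ℓ y, ‖c x ℓ y‖ = 1
  ind : ∀ x ℓ A, MeasurableSet A →
    ℓ (P A x) = ∫ y, A.indicator (fun _ => (1 : ℂ)) y * c x ℓ y ∂(m x ℓ)

lemma exists_dat {P : Set ℂ → (E →L[ℂ] E)} (hP : IsSpectralMeasure P) : Nonempty (Dat P) := by
  have h : ∀ (x : E) (ℓ : StrongDual ℂ E), ∃ (m : Measure ℂ) (c : ℂ → ℂ), IsFiniteMeasure m ∧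
      Measurable c ∧ (∀ y, ‖c y‖ = 1) ∧ ∀ A, MeasurableSet A →
        ℓ (P A x) = ∫ y, A.indicator (fun _ => (1 : ℂ)) y * c y ∂m := by
    intro x ℓ
    exact FC65.exists_polar_of_sigma (fun A => ℓ (P A x)) (fun A hA hd => hP.sigma A hA hd x ℓ)
  choose m c h1 h2 h3 h4 using h
  exact ⟨⟨m, c, h1, h2, h3, h4⟩⟩

variable {P : Set ℂ → (E →L[ℂ] E)}

/-- the functional `b ↦ ∫ b dℓ(P x)` -/
noncomputable def Dat.L (D : Dat P) (x : E) (ℓ : StrongDual ℂ E) (b : ℂ → ℂ) : ℂ :=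
  ∫ y, b y * D.c x ℓ y ∂(D.m x ℓ)

lemma Dat.lf (D : Dat P) (x : E) (ℓ : StrongDual ℂ E) : FC65.LF (D.L x ℓ) := by
  have := D.fin x ℓ
  exact (FC65.LF.integral (D.m x ℓ)).mulr ⟨D.meas x ℓ, 1, fun y => (D.one x ℓ y).le⟩

lemma Dat.L_ind (D : Dat P) (x : E) (ℓ : StrongDual ℂ E) {A : Set ℂ} (hA : MeasurableSet A) :
    D.L x ℓ (A.indicator fun _ => (1 : ℂ)) = ℓ (P A x) := (D.ind x ℓ A hA).symm

lemma Dat.norm_ind_le (D : Dat P) (x : E) (ℓ : StrongDual ℂ E) {A : Set ℂ}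
    (hA : MeasurableSet A) : ‖ℓ (P A x)‖ ≤ (D.m x ℓ).real univ := by
  have := D.fin x ℓ
  rw [D.ind x ℓ A hA]
  have h := norm_integral_le_of_norm_le_const (μ := D.m x ℓ) (C := 1)
    (f := fun y => A.indicator (fun _ => (1 : ℂ)) y * D.c x ℓ y) (Eventually.of_forall fun y => by
      rw [norm_mul, D.one, mul_one]
      by_cases hy : y ∈ A <;> simp [hy])
  rwa [one_mul] at h

/-- Banach Steinhaus, twice -/
lemma Dat.bdd [CompleteSpace E] (D : Dat P) :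
    ∃ M : ℝ, 0 ≤ M ∧ ∀ A, MeasurableSet A → ‖P A‖ ≤ M := by
  have h1 : ∀ x : E, ∃ C, ∀ A : {A : Set ℂ // MeasurableSet A}, ‖P A.1 x‖ ≤ C := by
    intro x
    obtain ⟨C, hC⟩ := banach_steinhaus
      (g := fun A : {A : Set ℂ // MeasurableSet A} =>
        NormedSpace.inclusionInDoubleDual ℂ E (P A.1 x)) (fun ℓ => ⟨(D.m x ℓ).real univ, fun A => by
        rw [NormedSpace.dual_def]
        exact D.norm_ind_le x ℓ A.2⟩)
    refine ⟨C, fun A => ?_⟩
    have h2 := hC A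
    have h3 : ‖NormedSpace.inclusionInDoubleDual ℂ E (P A.1 x)‖ = ‖P A.1 x‖ :=
      (NormedSpace.inclusionInDoubleDualLi ℂ (E := E)).norm_map _
    rwa [h3] at h2
  obtain ⟨M, hM⟩ := banach_steinhaus (g := fun A : {A : Set ℂ // MeasurableSet A} => P A.1) h1
  exact ⟨|M|, abs_nonneg _, fun A hA => (hM ⟨A, hA⟩).trans (le_abs_self _)⟩

lemma Dat.L_le (D : Dat P) {M : ℝ} (hM : ∀ A, MeasurableSet A → ‖P A‖ ≤ M)
    (x : E) (ℓ : StrongDual ℂ E) {b : ℂ → ℂ} {K : ℝ} (hK : ∀ z, ‖b z‖ ≤ K) :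
    ‖D.L x ℓ b‖ ≤ 4 * M * K * ‖x‖ * ‖ℓ‖ := by
  have := D.fin x ℓ
  have hK0 : 0 ≤ K := (norm_nonneg _).trans (hK 0)
  have h1 : (D.m x ℓ).real univ ≤ 4 * (M * ‖x‖ * ‖ℓ‖) := by
    refine FC65.mass_le (D.m x ℓ) (D.meas x ℓ) (D.one x ℓ) fun A hA => ?_
    rw [← D.ind x ℓ A hA]
    calc ‖ℓ (P A x)‖ ≤ ‖ℓ‖ * ‖P A x‖ := ℓ.le_opNorm _
      _ ≤ ‖ℓ‖ * (‖P A‖ * ‖x‖) := by gcongr; exact (P A).le_opNorm _
      _ ≤ ‖ℓ‖ * (M * ‖x‖) := by gcongr; exact hM A hA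
      _ = M * ‖x‖ * ‖ℓ‖ := by ring
  have h2 := norm_integral_le_of_norm_le_const (μ := D.m x ℓ) (C := K)
    (f := fun y => b y * D.c x ℓ y) (Eventually.of_forall fun y => by
      rw [norm_mul, D.one, mul_one]; exact hK y)
  calc ‖D.L x ℓ b‖ ≤ K * (D.m x ℓ).real univ := h2
    _ ≤ K * (4 * (M * ‖x‖ * ‖ℓ‖)) := by gcongr
    _ = _ := by ring

/-- `T = ∫ b dP` -/
def Dat.Rep (D : Dat P) (b : ℂ → ℂ) (T : E →L[ℂ] E) : Prop := ∀ x ℓ, ℓ (T x) = D.L x ℓ b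

lemma Dat.Rep.unique {D : Dat P} {b : ℂ → ℂ} {T T' : E →L[ℂ] E} (h : D.Rep b T)
    (h' : D.Rep b T') : T = T' := by
  ext x
  refine (SeparatingDual.eq_iff_forall_dual_eq (R := ℂ)).2 fun ℓ => ?_
  rw [h x ℓ, h' x ℓ]

lemma Dat.Rep.ind {D : Dat P} {A : Set ℂ} (hA : MeasurableSet A) :
    D.Rep (A.indicator fun _ => (1 : ℂ)) (P A) := fun x ℓ => (D.L_ind x ℓ hA).symm

lemma Dat.Rep.add {D : Dat P} {b b' : ℂ → ℂ} {T T' : E →L[ℂ] E} (hb : BM b) (hb' : BM b')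
    (h : D.Rep b T) (h' : D.Rep b' T') : D.Rep (b + b') (T + T') := by
  intro x ℓ
  have e : D.L x ℓ (b + b') = D.L x ℓ b + D.L x ℓ b' := (D.lf x ℓ).add b b' hb hb'
  rw [e, ← h x ℓ, ← h' x ℓ, add_apply, map_add]

lemma Dat.Rep.smul {D : Dat P} {b : ℂ → ℂ} {T : E →L[ℂ] E} (hb : BM b) (a : ℂ)
    (h : D.Rep b T) : D.Rep (a • b) (a • T) := by
  intro x ℓ
  have e : D.L x ℓ (a • b) = a * D.L x ℓ b := (D.lf x ℓ).smul a b hb
  rw [e, ← h x ℓ, smul_apply, map_smul, smul_eq_mul]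

lemma Dat.Rep.sub {D : Dat P} {b b' : ℂ → ℂ} {T T' : E →L[ℂ] E} (hb : BM b) (hb' : BM b')
    (h : D.Rep b T) (h' : D.Rep b' T') : D.Rep (b - b') (T - T') := by
  intro x ℓ
  have e : D.L x ℓ (b - b') = D.L x ℓ b - D.L x ℓ b' := (D.lf x ℓ).sub hb hb'
  rw [e, ← h x ℓ, ← h' x ℓ, sub_apply, map_sub]

lemma Dat.Rep.norm_le {D : Dat P} {M : ℝ} (hM0 : 0 ≤ M)
    (hM : ∀ A, MeasurableSet A → ‖P A‖ ≤ M) {b : ℂ → ℂ} {T : E →L[ℂ] E}
    (h : D.Rep b T) {K : ℝ} (hK : ∀ z, ‖b z‖ ≤ K) : ‖T‖ ≤ 4 * M * K := by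
  have hK0 : 0 ≤ K := (norm_nonneg _).trans (hK 0)
  refine T.opNorm_le_bound (by positivity) fun x => ?_
  refine NormedSpace.norm_le_dual_bound ℂ _ (by positivity) fun ℓ => ?_
  rw [h x ℓ]
  exact D.L_le hM x ℓ hK

/-- uniform approximation by simple functions -/
lemma exists_simple {b : ℂ → ℂ} (hb : BM b) {ε : ℝ} (hε : 0 < ε) :
    ∃ s : SimpleFunc ℂ ℂ, ∀ z, ‖b z - s z‖ ≤ ε := by
  obtain ⟨mb, C, hC⟩ := hb
  have hcomp : IsCompact (closedBall (0 : ℂ) C) := isCompact_closedBall 0 C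
  let e : ℕ → ℂ := TopologicalSpace.denseSeq ℂ
  have hcov : closedBall (0 : ℂ) C ⊆ ⋃ n, ball (e n) ε := by
    intro z _
    obtain ⟨y, hy, k, rfl⟩ := (Metric.dense_iff.1 (TopologicalSpace.denseRange_denseSeq ℂ)) z ε hε
    exact mem_iUnion.2 ⟨k, by rw [mem_ball, dist_comm]; exact hy⟩
  obtain ⟨t, ht⟩ := hcomp.elim_finite_subcover _ (fun n => isOpen_ball) hcov
  obtain ⟨N, hN⟩ := t.bddAbove
  refine ⟨(SimpleFunc.nearestPt e N).comp b mb, fun z => ?_⟩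
  have hz : b z ∈ closedBall (0 : ℂ) C := by simpa using hC z
  obtain ⟨k, hk, hkz⟩ := mem_iUnion₂.1 (ht hz)
  have h1 := SimpleFunc.edist_nearestPt_le e (b z) (hN hk)
  rw [SimpleFunc.coe_comp, Function.comp_apply, ← dist_eq_norm, dist_comm]
  have h2 : dist (SimpleFunc.nearestPt e N (b z)) (b z) ≤ dist (e k) (b z) := by
    rw [edist_dist, edist_dist] at h1
    exact (ENNReal.ofReal_le_ofReal_iff dist_nonneg).1 h1
  refine h2.trans ?_
  rw [dist_comm]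
  exact (mem_ball.1 hkz).le

lemma Dat.exists_rep_simple (D : Dat P) (s : SimpleFunc ℂ ℂ) : ∃ T, D.Rep (s : ℂ → ℂ) T := by
  induction s using SimpleFunc.induction with
  | const c hS =>
    rename_i S
    have e : (⇑(SimpleFunc.piecewise S hS (SimpleFunc.const ℂ c) (SimpleFunc.const ℂ 0)) : ℂ → ℂ)
        = c • S.indicator (fun _ => (1 : ℂ)) := by
      funext x
      by_cases hx : x ∈ S
      · simp [hx]
      · simp [hx]
    rw [e]
    exact ⟨c • P S, (Dat.Rep.ind hS).smul (FC65.BM.indicator hS 1) c⟩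
  | add hd hf hg =>
    rename_i f g
    obtain ⟨T, hT⟩ := hf
    obtain ⟨T', hT'⟩ := hg
    exact ⟨T + T', hT.add (FC65.BM.simple f) (FC65.BM.simple g) hT'⟩

/-- uniform limits -/
lemma Dat.rep_lim [CompleteSpace E] (D : Dat P) {b : ℂ → ℂ} (hb : BM b) {bn : ℕ → ℂ → ℂ}
    (hbn : ∀ n, BM (bn n)) {Tn : ℕ → (E →L[ℂ] E)} (hT : ∀ n, D.Rep (bn n) (Tn n))
    {ε : ℕ → ℝ} (hε : Tendsto ε atTop (𝓝 0)) (h : ∀ n z, ‖b z - bn n z‖ ≤ ε n) :
    ∃ T, D.Rep b T ∧ Tendsto Tn atTop (𝓝 T) := by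
  obtain ⟨M, hM0, hM⟩ := D.bdd
  have hbd : ∀ k n, ‖Tn k - Tn n‖ ≤ 4 * M * (ε k + ε n) := by
    intro k n
    refine Dat.Rep.norm_le hM0 hM ((hT k).sub (hbn k) (hbn n) (hT n)) fun z => ?_
    rw [Pi.sub_apply]
    have e : bn k z - bn n z = (b z - bn n z) - (b z - bn k z) := by ring
    rw [e]
    calc ‖(b z - bn n z) - (b z - bn k z)‖ ≤ ‖b z - bn n z‖ + ‖b z - bn k z‖ := norm_sub_le _ _
      _ ≤ ε n + ε k := add_le_add (h n z) (h k z)
      _ = _ := add_comm _ _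
  have hcau : CauchySeq Tn := by
    rw [Metric.cauchySeq_iff]
    intro δ hδ
    have h2 : Tendsto (fun n => 4 * M * ε n) atTop (𝓝 0) := by
      simpa using hε.const_mul (4 * M)
    obtain ⟨N, hN⟩ := eventually_atTop.1 (h2.eventually (gt_mem_nhds (half_pos hδ)))
    refine ⟨N, fun k hk n hn => ?_⟩
    rw [dist_eq_norm]
    refine (hbd k n).trans_lt ?_
    have h3 := hN k hk
    have h4 := hN n hn
    linarith
  obtain ⟨T, hTl⟩ := cauchySeq_tendsto_of_complete hcau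
  refine ⟨T, fun x ℓ => ?_, hTl⟩
  have h1 : Tendsto (fun n => ℓ (Tn n x)) atTop (𝓝 (ℓ (T x))) := by
    have h2 : Tendsto (fun n => Tn n x) atTop (𝓝 (T x)) :=
      ((ContinuousLinearMap.apply ℂ E x).continuous.tendsto T).comp hTl
    exact (ℓ.continuous.tendsto _).comp h2
  have h3 : Tendsto (fun n => D.L x ℓ (bn n)) atTop (𝓝 (D.L x ℓ b)) := by
    rw [tendsto_iff_norm_sub_tendsto_zero]
    refine squeeze_zero (fun _ => norm_nonneg _) (g := fun n => 4 * M * ε n * ‖x‖ * ‖ℓ‖)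
      (fun n => ?_) ?_
    · rw [← (D.lf x ℓ).sub (hbn n) hb]
      refine D.L_le hM x ℓ fun z => ?_
      rw [norm_sub_rev]
      exact h n z
    · have := ((hε.const_mul (4 * M)).mul_const ‖x‖).mul_const ‖ℓ‖
      simpa using this
  have e : (fun n => ℓ (Tn n x)) = fun n => D.L x ℓ (bn n) := funext fun n => hT n x ℓ
  rw [e] at h1
  exact tendsto_nhds_unique h1 h3

lemma Dat.exists_rep [CompleteSpace E] (D : Dat P) {b : ℂ → ℂ} (hb : BM b) :
    ∃ T, D.Rep b T := by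
  have h : ∀ n : ℕ, ∃ s : SimpleFunc ℂ ℂ, ∀ z, ‖b z - s z‖ ≤ 1 / ((n : ℝ) + 1) := fun n =>
    exists_simple hb (by positivity)
  choose s hs using h
  choose T hT using fun n => D.exists_rep_simple (s n)
  obtain ⟨T', h1, -⟩ := D.rep_lim hb (fun n => FC65.BM.simple (s n)) hT
    tendsto_one_div_add_atTop_nhds_zero_nat hs
  exact ⟨T', h1⟩

open Classical in
/-- the calculus -/
noncomputable def Dat.Th (D : Dat P) (b : ℂ → ℂ) : E →L[ℂ] E :=
  if h : ∃ T, D.Rep b T then h.choose else 0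

lemma Dat.rep_Th [CompleteSpace E] (D : Dat P) {b : ℂ → ℂ} (hb : BM b) : D.Rep b (D.Th b) := by
  have h := D.exists_rep hb
  rw [Dat.Th, dif_pos h]
  exact h.choose_spec

lemma Dat.Rep.eq [CompleteSpace E] {D : Dat P} {b : ℂ → ℂ} {T : E →L[ℂ] E} (hb : BM b)
    (h : D.Rep b T) : D.Th b = T := (D.rep_Th hb).unique h

lemma Dat.Th_ind [CompleteSpace E] (D : Dat P) {A : Set ℂ} (hA : MeasurableSet A) :
    D.Th (A.indicator fun _ => (1 : ℂ)) = P A :=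
  (Dat.Rep.ind hA).eq (FC65.BM.indicator hA 1)

lemma Dat.mul_ind [CompleteSpace E] (D : Dat P) (hP : IsSpectralMeasure P) {b : ℂ → ℂ}
    (hb : BM b) {B : Set ℂ} (hB : MeasurableSet B) (x : E) (ℓ : StrongDual ℂ E) :
    D.L x ℓ (fun z => b z * B.indicator (fun _ => (1 : ℂ)) z) = D.L (P B x) ℓ b := by
  have h1 : FC65.LF (fun a => D.L x ℓ (fun z => a z * B.indicator (fun _ => (1 : ℂ)) z)) :=
    (D.lf x ℓ).mulr (FC65.BM.indicator hB 1)
  refine h1.ext_ind (D.lf (P B x) ℓ) (fun A hA => ?_) hb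
  have e : (fun z => A.indicator (fun _ => (1 : ℂ)) z * B.indicator (fun _ => (1 : ℂ)) z)
      = (A ∩ B).indicator fun _ => (1 : ℂ) := by
    funext z
    by_cases h1 : z ∈ A <;> by_cases h2 : z ∈ B <;> simp [h1, h2]
  rw [e, D.L_ind x ℓ (hA.inter hB), D.L_ind (P B x) ℓ hA, hP.inter A B hA hB]
  rfl

lemma Dat.Th_mul [CompleteSpace E] (D : Dat P) (hP : IsSpectralMeasure P) {a b : ℂ → ℂ}
    (ha : BM a) (hb : BM b) : D.Th (a * b) = D.Th a * D.Th b := by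
  refine Dat.Rep.eq (FC65.BM.mul ha hb) fun x ℓ => ?_
  have e1 : ℓ ((D.Th a * D.Th b) x) = D.L x (ℓ.comp (D.Th a)) b := by
    rw [← D.rep_Th hb x (ℓ.comp (D.Th a))]
    rfl
  rw [e1]
  have h1 : FC65.LF (fun c => D.L x ℓ (fun z => c z * a z)) := (D.lf x ℓ).mulr ha
  have h2 := (D.lf x (ℓ.comp (D.Th a))).ext_ind h1 (fun B hB => ?_) hb
  · rw [h2]
    congr 1
    funext z
    exact mul_comm _ _
  · rw [D.L_ind x _ hB]
    have e2 : (fun z => B.indicator (fun _ => (1 : ℂ)) z * a z)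
        = fun z => a z * B.indicator (fun _ => (1 : ℂ)) z := by funext z; exact mul_comm _ _
    rw [e2, D.mul_ind hP ha hB, ← D.rep_Th ha (P B x) ℓ]
    rfl

/-- the calculus of a spectral measure -/
theorem Dat.calculus [CompleteSpace E] (D : Dat P) (hP : IsSpectralMeasure P) :
    Calculus D.Th where
  one := by
    have e : (1 : ℂ → ℂ) = (univ : Set ℂ).indicator fun _ => (1 : ℂ) := by
      funext z; simp
    rw [e, D.Th_ind MeasurableSet.univ, hP.univ]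
  add := fun b₁ b₂ h1 h2 =>
    ((D.rep_Th h1).add h1 h2 (D.rep_Th h2)).eq (FC65.BM.add h1 h2)
  smul := fun a b hb => ((D.rep_Th hb).smul hb a).eq (FC65.BM.smul a hb)
  mul := fun b₁ b₂ h1 h2 => D.Th_mul hP h1 h2
  bdd := by
    obtain ⟨M, hM0, hM⟩ := D.bdd
    exact ⟨4 * M, fun b hb K hK => (D.rep_Th ⟨hb, K, hK⟩).norm_le hM0 hM hK⟩
  meas := fun x ℓ => ⟨D.m x ℓ, D.c x ℓ, D.fin x ℓ, D.meas x ℓ, D.one x ℓ,
    fun b hb => D.rep_Th hb x ℓ⟩

/-- a small operator has a small symbol, off a null set -/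
lemma Dat.null_of_small [CompleteSpace E] (D : Dat P) (hP : IsSpectralMeasure P) {M : ℝ}
    (hM0 : 0 ≤ M) (hM : ∀ A, MeasurableSet A → ‖P A‖ ≤ M) {b : ℂ → ℂ} (hb : BM b) {α : ℝ}
    (hα : 0 < α) (h : 4 * M * ‖D.Th b‖ < α) : P {z | α < ‖b z‖} = 0 := by
  set A : Set ℂ := {z | α < ‖b z‖} with hAdef
  have hA : MeasurableSet A := measurableSet_lt measurable_const hb.1.norm
  let g : ℂ → ℂ := A.indicator fun z => (b z)⁻¹
  have hgb : ∀ z, ‖g z‖ ≤ 1 / α := by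
    intro z
    by_cases hz : z ∈ A
    · have hz' : α < ‖b z‖ := hz
      simp only [g, indicator_of_mem hz, norm_inv, one_div]
      exact inv_anti₀ hα hz'.le
    · simp only [g, indicator_of_notMem hz, norm_zero]
      positivity
  have hg : BM g := ⟨hb.1.inv.indicator hA, 1 / α, hgb⟩
  have e : (A.indicator fun _ => (1 : ℂ)) = b * g := by
    funext z
    by_cases hz : z ∈ A
    · have hz' : α < ‖b z‖ := hz
      have hne : b z ≠ 0 := by
        intro h0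
        rw [h0, norm_zero] at hz'
        linarith
      simp [g, hz, hne]
    · simp [g, hz]
  have h1 : P A = D.Th b * D.Th g := by
    rw [← D.Th_ind hA, e, D.Th_mul hP hb hg]
  have h2 : ‖P A‖ < 1 := by
    have h3 : ‖D.Th g‖ ≤ 4 * M * (1 / α) := (D.rep_Th hg).norm_le hM0 hM hgb
    calc ‖P A‖ ≤ ‖D.Th b‖ * ‖D.Th g‖ := by rw [h1]; exact norm_mul_le _ _
      _ ≤ ‖D.Th b‖ * (4 * M * (1 / α)) := by gcongr
      _ = (4 * M * ‖D.Th b‖) / α := by ring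
      _ < 1 := by rw [div_lt_one hα]; exact h
  have h3 : P A = P A * P A := by
    conv_lhs => rw [← inter_self A]
    exact hP.inter A A hA hA
  have h4 : ‖P A‖ ≤ ‖P A‖ * ‖P A‖ := by
    conv_lhs => rw [h3]
    exact norm_mul_le _ _
  have h5 : ‖P A‖ = 0 := by
    by_contra hne
    have hpos : 0 < ‖P A‖ := lt_of_le_of_ne (norm_nonneg _) (Ne.symm hne)
    nlinarith
  exact norm_eq_zero.1 h5

lemma null_mono (hP : IsSpectralMeasure P) {A B : Set ℂ} (hA : MeasurableSet A)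
    (hB : MeasurableSet B) (h : A ⊆ B) (h0 : P B = 0) : P A = 0 := by
  have h1 := hP.inter A B hA hB
  rw [inter_eq_left.2 h, h0, mul_zero] at h1
  exact h1

lemma null_iUnion (hP : IsSpectralMeasure P) {A : ℕ → Set ℂ} (hA : ∀ n, MeasurableSet (A n))
    (h0 : ∀ n, P (A n) = 0) : P (⋃ n, A n) = 0 := by
  have hd : ∀ n, MeasurableSet (disjointed A n) := fun n => MeasurableSet.disjointed hA n
  ext x
  refine (SeparatingDual.eq_iff_forall_dual_eq (R := ℂ)).2 fun ℓ => ?_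
  have h1 := hP.sigma (disjointed A) hd (disjoint_disjointed A) x ℓ
  rw [iUnion_disjointed] at h1
  have h2 : (fun n => ℓ (P (disjointed A n) x)) = fun _ => (0 : ℂ) := by
    funext n
    rw [null_mono hP (hd n) (hA n) (disjointed_subset A n) (h0 n)]
    simp
  rw [h2] at h1
  rw [h1.unique hasSum_zero]
  simp

/-- modifying a function on a null set -/
lemma Dat.Th_modify [CompleteSpace E] (D : Dat P) (hP : IsSpectralMeasure P) {Z : Set ℂ}
    (hZ : MeasurableSet Z) (h0 : P Z = 0) {b : ℂ → ℂ} (hb : BM b) :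
    D.Th (fun z => b z * Zᶜ.indicator (fun _ => (1 : ℂ)) z) = D.Th b := by
  have hc : P Zᶜ = 1 := by
    have h1 := (Dat.Rep.ind (D := D) hZ).add (FC65.BM.indicator hZ 1)
      (FC65.BM.indicator hZ.compl 1) (Dat.Rep.ind hZ.compl)
    have e : (Z.indicator fun _ => (1 : ℂ)) + (Zᶜ.indicator fun _ => (1 : ℂ))
        = (univ : Set ℂ).indicator fun _ => (1 : ℂ) := by
      funext z
      by_cases hz : z ∈ Z <;> simp [hz]
    rw [e] at h1
    have h2 := h1.unique (Dat.Rep.ind MeasurableSet.univ)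
    rw [h0, zero_add, hP.univ] at h2
    exact h2
  have h1 := D.Th_mul hP hb (FC65.BM.indicator hZ.compl 1)
  rw [D.Th_ind hZ.compl, hc, mul_one] at h1
  exact h1

/-- elements of the span come from simple functions -/
lemma Dat.span [CompleteSpace E] (D : Dat P) {S : E →L[ℂ] E}
    (hS : S ∈ Submodule.span ℂ {S : E →L[ℂ] E | ∃ A : Set ℂ, MeasurableSet A ∧ S = P A}) :
    ∃ b, BM b ∧ D.Th b = S := by
  induction hS using Submodule.span_induction with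
  | mem S h =>
    obtain ⟨A, hA, rfl⟩ := h
    exact ⟨_, FC65.BM.indicator hA 1, D.Th_ind hA⟩
  | zero =>
    refine ⟨fun _ => 0, FC65.BM.const 0, Dat.Rep.eq (FC65.BM.const 0) fun x ℓ => ?_⟩
    rw [(D.lf x ℓ).zero]
    simp
  | add S T _ _ hS hT =>
    obtain ⟨a, ha, ha'⟩ := hS
    obtain ⟨b, hb, hb'⟩ := hT
    refine ⟨a + b, FC65.BM.add ha hb, ?_⟩
    rw [← ha', ← hb']
    exact ((D.rep_Th ha).add ha hb (D.rep_Th hb)).eq (FC65.BM.add ha hb)
  | smul c S _ hS =>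
    obtain ⟨a, ha, ha'⟩ := hS
    refine ⟨c • a, FC65.BM.smul c ha, ?_⟩
    rw [← ha']
    exact ((D.rep_Th ha).smul ha c).eq (FC65.BM.smul c ha)

theorem Dat.closure [CompleteSpace E] (D : Dat P) (hP : IsSpectralMeasure P) {N : E →L[ℂ] E}
    (hN : N ∈ closure (Submodule.span ℂ {S : E →L[ℂ] E | ∃ A : Set ℂ, MeasurableSet A ∧ S = P A} :
      Set (E →L[ℂ] E))) : ∃ φ : ℂ → ℂ, BM φ ∧ D.Th φ = N := by
  obtain ⟨M, hM0, hM⟩ := D.bdd
  have h1 : ∀ k : ℕ, ∃ b : ℂ → ℂ, BM b ∧ ‖D.Th b - N‖ ≤ (1 / 2) ^ k := by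
    intro k
    obtain ⟨S, hS, hd⟩ := Metric.mem_closure_iff.1 hN ((1 / 2) ^ k) (by positivity)
    obtain ⟨b, hb, hb'⟩ := D.span hS
    refine ⟨b, hb, ?_⟩
    rw [hb', ← dist_eq_norm, dist_comm]
    exact hd.le
  choose b hb hbN using h1
  -- consecutive differences
  have h2 : ∀ k, ‖D.Th (b (k + 1) - b k)‖ ≤ 2 * (1 / 2) ^ k := by
    intro k
    have e : D.Th (b (k + 1) - b k) = D.Th (b (k + 1)) - D.Th (b k) :=
      ((D.rep_Th (hb (k + 1))).sub (hb _) (hb k) (D.rep_Th (hb k))).eq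
        (FC65.BM.sub (hb _) (hb k))
    rw [e]
    have e2 : D.Th (b (k + 1)) - D.Th (b k)
        = (D.Th (b (k + 1)) - N) - (D.Th (b k) - N) := by abel
    rw [e2]
    have h3 := hbN (k + 1)
    have h4 := hbN k
    have h5 : (1 / 2 : ℝ) ^ (k + 1) ≤ (1 / 2) ^ k :=
      pow_le_pow_of_le_one (by norm_num) (by norm_num) (Nat.le_succ k)
    calc ‖(D.Th (b (k + 1)) - N) - (D.Th (b k) - N)‖
        ≤ ‖D.Th (b (k + 1)) - N‖ + ‖D.Th (b k) - N‖ := norm_sub_le _ _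
      _ ≤ 2 * (1 / 2) ^ k := by linarith
  let C : ℝ := (4 * M + 1) * 2
  have hC : 0 < C := by positivity
  let Zk : ℕ → Set ℂ := fun k => {z | C * (1 / 2) ^ k < ‖(b (k + 1) - b k) z‖}
  have hZk : ∀ k, MeasurableSet (Zk k) := fun k =>
    measurableSet_lt measurable_const ((hb (k + 1)).1.sub (hb k).1).norm
  have hZk0 : ∀ k, P (Zk k) = 0 := by
    intro k
    refine D.null_of_small hP hM0 hM (FC65.BM.sub (hb _) (hb k)) (by positivity) ?_
    have hp : (0 : ℝ) < (1 / 2) ^ k := by positivity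
    calc 4 * M * ‖D.Th (b (k + 1) - b k)‖ ≤ 4 * M * (2 * (1 / 2) ^ k) := by
          gcongr
          exact h2 k
      _ < C * (1 / 2) ^ k := by
          simp only [C]
          nlinarith
  set Z : Set ℂ := ⋃ k, Zk k with hZdef
  have hZ : MeasurableSet Z := MeasurableSet.iUnion hZk
  have hZ0 : P Z = 0 := null_iUnion hP hZk hZk0
  let b' : ℕ → ℂ → ℂ := fun k z => b k z * Zᶜ.indicator (fun _ => (1 : ℂ)) z
  have hb' : ∀ k, BM (b' k) := fun k => FC65.BM.mul (hb k) (FC65.BM.indicator hZ.compl 1)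
  have hTh : ∀ k, D.Th (b' k) = D.Th (b k) := fun k => D.Th_modify hP hZ hZ0 (hb k)
  have hdif : ∀ k z, dist (b' k z) (b' (k + 1) z) ≤ C * (1 / 2) ^ k := by
    intro k z
    rw [dist_comm, dist_eq_norm]
    by_cases hz : z ∈ Z
    · simp only [b', indicator_of_notMem (show z ∉ Zᶜ from fun h => h hz), mul_zero, sub_self,
        norm_zero]
      positivity
    · simp only [b', indicator_of_mem (show z ∈ Zᶜ from hz), mul_one]
      by_contra hcon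
      exact hz (mem_iUnion.2 ⟨k, not_le.1 hcon⟩)
  have hcau : ∀ z, CauchySeq fun k => b' k z := fun z =>
    cauchySeq_of_le_geometric (1 / 2) C (by norm_num) fun k => hdif k z
  choose φ hφ using fun z => cauchySeq_tendsto_of_complete (hcau z)
  have herr : ∀ k z, ‖φ z - b' k z‖ ≤ C * (1 / 2) ^ k / (1 - 1 / 2) := by
    intro k z
    rw [← dist_eq_norm, dist_comm]
    exact dist_le_of_le_geometric_of_tendsto (1 / 2) C (by norm_num) (fun k => hdif k z) (hφ z) k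
  have hφm : Measurable φ := measurable_of_tendsto_metrizable (fun k => (hb' k).1)
    (tendsto_pi_nhds.2 hφ)
  have hφb : BM φ := by
    obtain ⟨-, K, hK⟩ := hb' 0
    refine ⟨hφm, C * (1 / 2) ^ 0 / (1 - 1 / 2) + K, fun z => ?_⟩
    calc ‖φ z‖ = ‖(φ z - b' 0 z) + b' 0 z‖ := by rw [sub_add_cancel]
      _ ≤ ‖φ z - b' 0 z‖ + ‖b' 0 z‖ := norm_add_le _ _
      _ ≤ _ := add_le_add (herr 0 z) (hK z)
  have hε : Tendsto (fun k : ℕ => C * (1 / 2 : ℝ) ^ k / (1 - 1 / 2)) atTop (𝓝 0) := by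
    have h := ((tendsto_pow_atTop_nhds_zero_of_lt_one (r := (1 / 2 : ℝ)) (by norm_num)
      (by norm_num)).const_mul C).div_const (1 - 1 / 2)
    simpa using h
  obtain ⟨T, hT, hlim⟩ := D.rep_lim hφb hb' (fun k => D.rep_Th (hb' k)) hε herr
  refine ⟨φ, hφb, ?_⟩
  rw [hT.eq hφb]
  have h3 : Tendsto (fun k => D.Th (b' k)) atTop (𝓝 N) := by
    rw [tendsto_iff_norm_sub_tendsto_zero]
    refine squeeze_zero (fun _ => norm_nonneg _) (fun k => ?_)
      (tendsto_pow_atTop_nhds_zero_of_lt_one (r := (1 / 2 : ℝ)) (by norm_num) (by norm_num))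
    rw [hTh k]
    exact hbN k
  exact tendsto_nhds_unique hlim h3

end JJ

/-- module J -/
theorem J_holds.{u} : J_Stmt.{u} := by
  intro E _ _ _ N hN
  obtain ⟨P, hP, hN⟩ := hN
  obtain ⟨D⟩ := JJ.exists_dat hP
  exact ⟨D.Th, D.calculus hP, D.closure hP hN⟩

end Pool.Agent.RankOne
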