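import Pool.Agent.Lib_helper65.FC.Calc
import Pool.Agent.Lib_helper65.FC.Polar
import Pool.Agent.Lib_helper15.RankOne.Defs2

/-! Module N: bounded Borel functional calculus of a normal operator. -/

set_option autoImplicit false

open MeasureTheory Metric Set

namespace Pool.Agent.RankOne

/-- the calculus attached to a star homomorphism `C(X, ℂ) → B(H)` -/
theorem calculus_of_hom {X : Type*} [MetricSpace X] [CompactSpace X] [MeasurableSpace X]
    [BorelSpace X] {H : Type*} [NormedAddCommGroup H] [InnerProductSpace ℂ H] [CompleteSpace H]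
    (π : C(X, ℂ) →⋆ₐ[ℂ] (H →L[ℂ] H)) : Calculus (FC65.Th π) where
  one := FC65.Th_one π
  add := fun b₁ b₂ h1 h2 => FC65.Th_add π h1 h2
  smul := fun a b hb => FC65.Th_smul π a hb
  mul := fun b₁ b₂ h1 h2 => FC65.Th_mul π h1 h2
  bdd := by
    by_cases hX : Nonempty X
    · refine ⟨1, fun b hb M hM => ?_⟩
      rw [one_mul]
      obtain ⟨x⟩ := hX
      exact FC65.Th_bound π ⟨hb, M, hM⟩ ((norm_nonneg _).trans (hM x)) hM
    · -- empty space: the algebra is trivial
      have hE : IsEmpty X := not_nonempty_iff.1 hX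
      refine ⟨0, fun b hb M hM => ?_⟩
      have h1 : (1 : C(X, ℂ)) = 0 := by
        ext x; exact hE.elim x
      have h2 : (1 : H →L[ℂ] H) = 0 := by rw [← map_one π, h1, map_zero]
      have h3 : FC65.Th π b = 0 := by
        rw [← mul_one (FC65.Th π b), h2, mul_zero]
      rw [h3, norm_zero, zero_mul]
  meas := by
    intro x ℓ
    set y : H := (InnerProductSpace.toDual ℂ H).symm ℓ with hy
    have hℓ : ∀ z : H, ℓ z = inner ℂ y z := fun z => by
      rw [hy, InnerProductSpace.toDual_symm_apply]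
    let μ : Fin 4 → Measure X := ![FC65.mu π (y + x), FC65.mu π (Complex.I • y + x),
      FC65.mu π (-y + x), FC65.mu π (-(Complex.I • y) + x)]
    have hf : ∀ i, IsFiniteMeasure (μ i) := by
      intro i
      fin_cases i
      · exact inferInstanceAs (IsFiniteMeasure (FC65.mu π (y + x)))
      · exact inferInstanceAs (IsFiniteMeasure (FC65.mu π (Complex.I • y + x)))
      · exact inferInstanceAs (IsFiniteMeasure (FC65.mu π (-y + x)))
      · exact inferInstanceAs (IsFiniteMeasure (FC65.mu π (-(Complex.I • y) + x)))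
    obtain ⟨m, c, h1, h2, h3, h4⟩ := FC65.polar4 μ
      ![1 / 4, 1 / 4 * Complex.I, -(1 / 4), -(1 / 4 * Complex.I)]
    refine ⟨m, c, h1, h2, h3, fun b hb => ?_⟩
    rw [← h4 b hb, hℓ, FC65.Th_inner π hb]
    simp only [FC65.Bf, FC65.qf, μ, Fin.sum_univ_four]
    simp
    ring

/-- module N -/
theorem N_holds.{u} : N_Stmt.{u} := by
  intro H _ _ _ N hN
  have : CompactSpace (spectrum ℂ N) := isCompact_iff_compactSpace.1 (spectrum.isCompact N)
  let π : C(spectrum ℂ N, ℂ) →⋆ₐ[ℂ] (H →L[ℂ] H) := cfcHom (R := ℂ) (a := N) hN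
  refine ⟨FC65.Th π, calculus_of_hom π, ?_⟩
  have h := FC65.Th_cont π ((ContinuousMap.id ℂ).restrict (spectrum ℂ N))
  have h2 : π ((ContinuousMap.id ℂ).restrict (spectrum ℂ N)) = N := cfcHom_id (R := ℂ) hN
  rw [h2] at h
  exact h

end Pool.Agent.RankOne
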